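import Pool.Agent.H8.Alt.Super.Syntax

/-!
# The schemas of the super engine
-/

namespace H8Alt.Super

def sJac : List (ℤ × RT) := [
  (1, .c (.c (.l 0) (.l 1)) (.l 2)),
  (1, .c (.c (.l 1) (.l 2)) (.l 0)),
  (1, .c (.c (.l 2) (.l 0)) (.l 1)),
  (-6, .a (.l 0) (.l 1) (.l 2))]

def sR4 : List (ℤ × RT) := [
  (1, .a (.c (.l 0) (.l 1)) (.l 2) (.l 3)),
  (2, .a (.c (.l 2) (.l 3)) (.l 0) (.l 1)),
  (-1, .c (.l 0) (.a (.l 1) (.l 2) (.l 3))),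
  (1, .c (.l 1) (.a (.l 0) (.l 2) (.l 3)))]

def sFal : List (ℤ × RT) := [
  (1, .a (.c (.l 0) (.l 1)) (.l 2) (.l 3)),
  (1, .a (.c (.l 2) (.l 3)) (.l 0) (.l 1)),
  (1, .a (.c (.l 0) (.l 2)) (.l 1) (.l 3)),
  (1, .a (.c (.l 1) (.l 3)) (.l 0) (.l 2))]

def sB1 : List (ℤ × RT) := [
  (1, .c (.a (.c (.l 0) (.l 1)) (.l 2) (.l 3)) (.l 4)),
  (1, .c (.a (.c (.l 2) (.l 3)) (.l 0) (.l 1)) (.l 4)),
  (1, .a (.a (.l 0) (.l 1) (.l 2)) (.l 4) (.l 3)),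
  (-1, .a (.a (.l 0) (.l 1) (.l 3)) (.l 4) (.l 2)),
  (1, .a (.a (.l 0) (.l 2) (.l 3)) (.l 4) (.l 1)),
  (-1, .a (.a (.l 1) (.l 2) (.l 3)) (.l 4) (.l 0))]

def sPhi : List (ℤ × RT) := [
  (1, .a (.l 0) (.l 1) (.a (.l 2) (.l 3) (.l 4))),
  (-1, .a (.a (.l 0) (.l 1) (.l 2)) (.l 3) (.l 4)),
  (-1, .a (.l 2) (.a (.l 0) (.l 1) (.l 3)) (.l 4)),
  (-1, .a (.l 2) (.l 3) (.a (.l 0) (.l 1) (.l 4))),
  (-1, .c (.c (.l 0) (.l 1)) (.a (.l 2) (.l 3) (.l 4))),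
  (1, .a (.c (.c (.l 0) (.l 1)) (.l 2)) (.l 3) (.l 4)),
  (1, .a (.c (.l 3) (.l 4)) (.c (.l 0) (.l 1)) (.l 2))]

def sK7 : List (ℤ × RT) := [
  (1, .c (.c (.l 0) (.l 2)) (.a (.l 1) (.l 3) (.l 4))),
  (-2, .a (.l 0) (.l 2) (.a (.l 1) (.l 3) (.l 4))),
  (1, .c (.c (.l 0) (.l 3)) (.a (.l 1) (.l 2) (.l 4))),
  (-2, .a (.l 0) (.l 3) (.a (.l 1) (.l 2) (.l 4))),
  (1, .c (.c (.l 1) (.l 2)) (.a (.l 0) (.l 3) (.l 4))),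
  (-2, .a (.l 1) (.l 2) (.a (.l 0) (.l 3) (.l 4))),
  (1, .c (.c (.l 1) (.l 3)) (.a (.l 0) (.l 2) (.l 4))),
  (-2, .a (.l 1) (.l 3) (.a (.l 0) (.l 2) (.l 4)))]

def sKj : List (ℤ × RT) := [
  (1, .j (.c (.l 0) (.l 2)) (.a (.l 1) (.l 3) (.l 4))),
  (1, .j (.c (.l 0) (.l 3)) (.a (.l 1) (.l 2) (.l 4))),
  (1, .j (.c (.l 1) (.l 2)) (.a (.l 0) (.l 3) (.l 4))),
  (1, .j (.c (.l 1) (.l 3)) (.a (.l 0) (.l 2) (.l 4)))]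

/-- the operator `[y,-]` on combinations of Jordan products (other roots are dropped) -/
def adOp (y : ℕ) : List (ℤ × RT) → List (ℤ × RT)
  | [] => []
  | (k, .j u v) :: s => (k, .j (.c (.l y) u) v) :: (k, .j u (.c (.l y) v)) :: adOp y s
  | (_, .c _ _) :: s => adOp y s
  | (_, .a _ _ _) :: s => adOp y s

/-- the operator `(-,y,w)` on combinations of Jordan products (other roots are dropped) -/
def deOp (y w : ℕ) : List (ℤ × RT) → List (ℤ × RT)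
  | [] => []
  | (k, .j u v) :: s => (k, .j u (.a v (.l y) (.l w))) :: (k, .j (.a u (.l y) (.l w)) v) :: deOp y w s
  | (_, .c _ _) :: s => deOp y w s
  | (_, .a _ _ _) :: s => deOp y w s

end H8Alt.Super
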