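import Pool.Agent.H8.Alt.Basic
import Mathlib.Algebra.Group.Subgroup.Basic
import Mathlib.Data.List.Sort

/-!
# Multilinear identities and their super versions
-/

namespace H8Alt.Super

/-- syntactic trees: letters, commutator, associator -/
inductive Tr
  | l (i : ℕ) : Tr
  | c (s t : Tr) : Tr
  | a (s t u : Tr) : Tr

/-- root nodes: commutator, associator, Jordan product -/
inductive RT
  | c (s t : Tr) : RT
  | a (s t u : Tr) : RT
  | j (s t : Tr) : RT

def Tr.leaves : Tr → List ℕ
  | .l i => [i]
  | .c s t => s.leaves ++ t.leaves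
  | .a s t u => s.leaves ++ (t.leaves ++ u.leaves)

def RT.leaves : RT → List ℕ
  | .c s t => s.leaves ++ t.leaves
  | .a s t u => s.leaves ++ (t.leaves ++ u.leaves)
  | .j s t => s.leaves ++ t.leaves

/-- insert a letter into a sorted list, with the Koszul sign (`true` means `-`) -/
def ins (p : ℕ → Bool) (i : ℕ) : List ℕ → Bool × List ℕ
  | [] => (false, [i])
  | j :: L =>
    if i ≤ j then (false, i :: j :: L)
    else (xor (p i && p j) (ins p i L).1, j :: (ins p i L).2)

/-- sort a list of letters, with the Koszul sign (`true` means `-`) -/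
def srt (p : ℕ → Bool) : List ℕ → Bool × List ℕ
  | [] => (false, [])
  | i :: L => (xor (srt p L).1 (ins p i (srt p L).2).1, (ins p i (srt p L).2).2)

/-- Koszul sign -/
def kos (p : ℕ → Bool) (L : List ℕ) : ℤ := if (srt p L).1 then -1 else 1

section
variable {A : Type*} [NonUnitalNonAssocRing A]

def Tr.eval (x : ℕ → A) : Tr → A
  | .l i => x i
  | .c s t => cm (s.eval x) (t.eval x)
  | .a s t u => as (s.eval x) (t.eval x) (u.eval x)

def RT.eval (x : ℕ → A) : RT → A
  | .c s t => cm (s.eval x) (t.eval x)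
  | .a s t u => as (s.eval x) (t.eval x) (u.eval x)
  | .j s t => s.eval x * t.eval x + t.eval x * s.eval x

/-- value of a linear combination of root nodes -/
def evalS (x : ℕ → A) : List (ℤ × RT) → A
  | [] => 0
  | t :: l => t.1 • t.2.eval x + evalS x l

end

/-- all terms are multilinear in the letters of `L` -/
def Multi (L : List ℕ) (s : List (ℤ × RT)) : Prop := ∀ t ∈ s, (srt (fun _ => false) t.2.leaves).2 = L

/-- Super structures: a group with graded (skew) operations. -/
structure Sem (S : Type*) [AddCommGroup S] where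
  com : S →+ S →+ S
  ass : S →+ S →+ S →+ S
  jor : S →+ S →+ S
  H : Bool → AddSubgroup S
  com_mem : ∀ {p q u v}, u ∈ H p → v ∈ H q → com u v ∈ H (xor p q)
  ass_mem : ∀ {p q r u v w}, u ∈ H p → v ∈ H q → w ∈ H r → ass u v w ∈ H (xor p (xor q r))
  com_swap : ∀ {p q u v}, u ∈ H p → v ∈ H q →
    com v u = (if (p && q) then (1 : ℤ) else -1) • com u v
  ass_swap12 : ∀ {p q u v} (w), u ∈ H p → v ∈ H q →
    ass v u w = (if (p && q) then (1 : ℤ) else -1) • ass u v w
  ass_swap23 : ∀ {p q u v} (w), u ∈ H p → v ∈ H q →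
    ass w v u = (if (p && q) then (1 : ℤ) else -1) • ass w u v
  jor_swap : ∀ {p q u v}, u ∈ H p → v ∈ H q →
    jor v u = (if (p && q) then (-1 : ℤ) else 1) • jor u v

namespace Sem
variable {S : Type*} [AddCommGroup S] (M : Sem S)

def evT (x : ℕ → S) : Tr → S
  | .l i => x i
  | .c s t => M.com (evT x s) (evT x t)
  | .a s t u => M.ass (evT x s) (evT x t) (evT x u)

def evR (x : ℕ → S) : RT → S
  | .c s t => M.com (M.evT x s) (M.evT x t)
  | .a s t u => M.ass (M.evT x s) (M.evT x t) (M.evT x u)
  | .j s t => M.jor (M.evT x s) (M.evT x t)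

/-- signed value of a linear combination -/
def evS (p : ℕ → Bool) (x : ℕ → S) : List (ℤ × RT) → S
  | [] => 0
  | t :: l => (t.1 * kos p t.2.leaves) • M.evR x t.2 + evS p x l

/-- the super version of a schema holds -/
def SValid (s : List (ℤ × RT)) : Prop :=
  ∀ (p : ℕ → Bool) (x : ℕ → S), (∀ i, x i ∈ M.H (p i)) → M.evS p x s = 0

end Sem

/-- schemas valid in an ordinary ring -/
def OValid (A : Type*) [NonUnitalNonAssocRing A] (s : List (ℤ × RT)) : Prop :=
  ∀ x : ℕ → A, evalS x s = 0

end H8Alt.Super
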